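import Pool.Agent.helper21.BEY.SpecB

/-!
# Row bey:PHF (MP_4467b5_nt)
-/

set_option autoImplicit false

open Complex MeasureTheory

namespace Pool.Agent.BEY

open Pool.Agent.helper84.DM Pool.Agent.helper78.ED Pool.Agent.DH Pool.Agent.LDH

theorem PHF_tel (g : ℕ → ℝ) (hg : ∀ n, g (n + 1) ≤ g n) (h0 : ∀ n, 0 ≤ g n ∧ g n ≤ 1) (a b : ℕ) :
    ∑ n ∈ Finset.Ioo a b, |g (n + 1) - g n| ≤ 1 := by
  have h1 : ∑ n ∈ Finset.Ioo a b, |g (n + 1) - g n| ≤ ∑ n ∈ Finset.range b, (g n - g (n + 1)) := by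
    have h2 : ∑ n ∈ Finset.Ioo a b, |g (n + 1) - g n| = ∑ n ∈ Finset.Ioo a b, (g n - g (n + 1)) := by
      refine Finset.sum_congr rfl fun n _ => ?_
      rw [abs_sub_comm, abs_of_nonneg (by linarith [hg n])]
    rw [h2]
    refine Finset.sum_le_sum_of_subset_of_nonneg ?_ (fun n _ _ => by linarith [hg n])
    intro n hn
    exact Finset.mem_range.2 (Finset.mem_Ioo.1 hn).2
  rw [Finset.sum_range_sub'] at h1
  linarith [(h0 0).2, (h0 b).1]

theorem PHF : PHF_stmt := by
  have p1 : ∀ x, x ≤ 1 → phi x = 1 := by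
    intro x hx
    unfold phi
    rw [Real.smoothTransition.zero_of_nonpos (by linarith), sub_zero]
  have p2 : ∀ x, 3 / 2 ≤ x → phi x = 0 := by
    intro x hx
    unfold phi
    rw [Real.smoothTransition.one_of_one_le (by linarith), sub_self]
  have p3 : ∀ x, 0 ≤ phi x ∧ phi x ≤ 1 := by
    intro x
    unfold phi
    have h1 := Real.smoothTransition.nonneg (2 * (x - 1))
    have h2 := Real.smoothTransition.le_one (2 * (x - 1))
    exact ⟨by linarith, by linarith⟩
  have p4 : Antitone phi := by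
    intro x y hxy
    unfold phi
    have h1 := Real.smoothTransition.monotone (show 2 * (x - 1) ≤ 2 * (y - 1) by linarith)
    linarith
  have q1 : ∀ x, x ≤ 1 → psi x = 0 := by
    intro x hx
    unfold psi
    rcases le_total 0 x with h | h
    · rw [p1 _ hx, p1 _ (by linarith), sub_self]
    · rw [p1 _ hx, p1 _ (by linarith), sub_self]
  have q2 : ∀ x, 2 ≤ x → psi x = 0 := by
    intro x hx
    unfold psi
    rw [p2 _ (by linarith), p2 _ (by linarith), sub_self]
  have q3 : ∀ x, 0 ≤ psi x ∧ psi x ≤ 1 := by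
    intro x
    rcases le_total x 1 with h | h
    · rw [q1 x h]
      exact ⟨le_rfl, zero_le_one⟩
    · unfold psi
      have h1 := p4 (show 3 * x / 4 ≤ x by linarith)
      have h2 := (p3 (3 * x / 4)).2
      have h3 := (p3 x).1
      exact ⟨by linarith, by linarith⟩
  have q4 : ∀ n : ℕ, ContDiff ℝ n psi := by
    intro n
    have hp : ContDiff ℝ n phi := by
      unfold phi
      exact contDiff_const.sub (Real.smoothTransition.contDiff.comp
        (contDiff_const.mul (contDiff_id.sub contDiff_const)))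
    unfold psi
    exact (hp.comp ((contDiff_const.mul contDiff_id).div_const 4)).sub hp
  have r0 : ∀ (c M : ℝ), 0 ≤ c → 0 < M → ∀ n : ℕ, phi (c * (((n + 1 : ℕ) : ℝ) / M)) ≤ phi (c * ((n : ℝ) / M)) := by
    intro c M hc hM n
    apply p4
    apply mul_le_mul_of_nonneg_left _ hc
    apply div_le_div_of_nonneg_right _ hM.le
    push_cast
    linarith
  refine ⟨p1, p2, p3, p4, q3, q1, q2, q4, fun M a b hM => ?_, fun M a b hM => ?_⟩
  · have h1 := PHF_tel (fun n => phi (1 * ((n : ℝ) / M))) (fun n => r0 1 M zero_le_one hM n)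
      (fun n => p3 _) a b
    simpa only [one_mul] using h1
  · have h1 := PHF_tel (fun n => phi (1 * ((n : ℝ) / M))) (fun n => r0 1 M zero_le_one hM n)
      (fun n => p3 _) a b
    have h2 := PHF_tel (fun n => phi (3 / 4 * ((n : ℝ) / M))) (fun n => r0 (3 / 4) M (by norm_num) hM n)
      (fun n => p3 _) a b
    have h3 : ∀ n ∈ Finset.Ioo a b, |psi (((n + 1 : ℕ) : ℝ) / M) - psi ((n : ℝ) / M)| ≤
        |phi (3 / 4 * (((n + 1 : ℕ) : ℝ) / M)) - phi (3 / 4 * ((n : ℝ) / M))| +
          |phi (1 * (((n + 1 : ℕ) : ℝ) / M)) - phi (1 * ((n : ℝ) / M))| := by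
      intro n _
      have e1 : psi (((n + 1 : ℕ) : ℝ) / M) - psi ((n : ℝ) / M) =
          (phi (3 / 4 * (((n + 1 : ℕ) : ℝ) / M)) - phi (3 / 4 * ((n : ℝ) / M))) -
            (phi (1 * (((n + 1 : ℕ) : ℝ) / M)) - phi (1 * ((n : ℝ) / M))) := by
        have e0 : ∀ x : ℝ, 3 * x / 4 = 3 / 4 * x := fun x => by ring
        unfold psi
        rw [one_mul, one_mul, e0, e0]
        ring
      rw [e1]
      exact abs_sub _ _
    have h4 := Finset.sum_le_sum h3
    rw [Finset.sum_add_distrib] at h4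
    refine h4.trans ?_
    have := add_le_add h2 h1
    linarith

end Pool.Agent.BEY
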