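import Pool.Agent.helper5.BEY.SpecA

/-!
# Row bey:SPL (MP_4467b5_nt)
-/

set_option autoImplicit false

open Complex MeasureTheory

namespace Pool.Agent.BEY

theorem SPL (hBLK : BLK_stmt) : SPL_stmt := by
  intro ε hε
  obtain ⟨C, hC, hb⟩ := hBLK ε hε
  refine ⟨C, hC, fun w T M G W hw hM hMT hG hWT hWs hWF => ?_⟩
  classical
  have hT : 1 ≤ T := hM.trans hMT
  have hG0 : 0 < G := lt_of_lt_of_le (by positivity) hG
  have hG3 : 0 < G ^ 3 := by positivity
  have hmap : ∀ t ∈ W, ⌊(t - T) / G ^ 3⌋₊ ∈ Finset.range (⌊T / G ^ 3⌋₊ + 1) := by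
    intro t ht
    rw [Finset.mem_range, Nat.lt_succ_iff]
    apply Nat.floor_le_floor
    exact div_le_div_of_nonneg_right (by linarith [(hWT t ht).2]) hG3.le
  rw [Finset.card_eq_sum_card_fiberwise hmap]
  push_cast
  have hbl : ∀ k ∈ Finset.range (⌊T / G ^ 3⌋₊ + 1),
      ((W.filter fun t => ⌊(t - T) / G ^ 3⌋₊ = k).card : ℝ) ≤ T * G ^ (-3 : ℝ) := by
    intro k _
    refine hb w T M G _ hw hM hMT hG ?_ ?_ ?_ ?_
    · intro t ht
      have := hWT t (Finset.mem_filter.1 ht).1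
      exact ⟨by linarith, by linarith⟩
    · intro t ht s hs hts
      exact hWs t (Finset.mem_filter.1 ht).1 s (Finset.mem_filter.1 hs).1 hts
    · have hloc : ∀ t ∈ W.filter (fun t => ⌊(t - T) / G ^ 3⌋₊ = k),
          T + k * G ^ 3 ≤ t ∧ t ≤ T + k * G ^ 3 + G ^ 3 := by
        intro t ht
        obtain ⟨h1, h2⟩ := Finset.mem_filter.1 ht
        have h0 : 0 ≤ (t - T) / G ^ 3 := div_nonneg (by linarith [(hWT t h1).1]) hG3.le
        have h3 := Nat.floor_le h0
        have h4 := (Nat.lt_floor_add_one ((t - T) / G ^ 3)).le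
        rw [h2] at h3 h4
        rw [le_div_iff₀ hG3] at h3
        rw [div_le_iff₀ hG3] at h4
        constructor
        · linarith
        · linarith
      intro t ht s hs
      obtain ⟨a1, a2⟩ := hloc t ht
      obtain ⟨b1, b2⟩ := hloc s hs
      rw [abs_le]
      constructor <;> linarith
    · intro t ht
      exact hWF t (Finset.mem_filter.1 ht).1
  refine (Finset.sum_le_sum hbl).trans ?_
  rw [Finset.sum_const, Finset.card_range, nsmul_eq_mul]
  have e1 : G ^ (-3 : ℝ) = 1 / G ^ 3 := by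
    rw [Real.rpow_neg hG0.le, one_div]
    congr 1
    exact_mod_cast Real.rpow_natCast G 3
  have e2 : G ^ (-6 : ℝ) = 1 / G ^ 6 := by
    rw [Real.rpow_neg hG0.le, one_div]
    congr 1
    exact_mod_cast Real.rpow_natCast G 6
  rw [e1, e2]
  have h1 : ((⌊T / G ^ 3⌋₊ + 1 : ℕ) : ℝ) ≤ T / G ^ 3 + 1 := by
    push_cast
    have := Nat.floor_le (show 0 ≤ T / G ^ 3 by positivity)
    linarith
  have h2 := mul_le_mul_of_nonneg_right h1 (show 0 ≤ T * (1 / G ^ 3) by positivity)
  refine h2.trans (le_of_eq ?_)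
  field_simp

end Pool.Agent.BEY
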