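import Pool.Agent.helper5.BEY.SpecA

/-!
# Row bey:TAI (MP_4467b5_nt)
-/

set_option autoImplicit false

open Complex MeasureTheory

namespace Pool.Agent.BEY

theorem TAI_exp (ε : ℝ) (hε : 0 < ε) : ∃ C : ℝ, 0 < C ∧ ∀ T : ℝ, 1 ≤ T →
    T ^ 2 * Real.exp (-((T ^ ε) ^ 2 / 16)) ≤ C := by
  obtain ⟨k, hk⟩ := exists_nat_ge (1 / ε)
  refine ⟨16 ^ k * (Nat.factorial k : ℝ), by positivity, fun T hT => ?_⟩
  have hT0 : 0 < T := by linarith
  have hx : 0 ≤ (T ^ ε) ^ 2 / 16 := by positivity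
  have h1 := Real.pow_div_factorial_le_exp _ hx k
  have h2 : T ^ 2 ≤ ((T ^ ε) ^ 2) ^ k := by
    have e1 : ((T ^ ε) ^ 2) ^ k = T ^ (ε * ((2 * k : ℕ) : ℝ)) := by
      rw [← pow_mul, ← Real.rpow_natCast, ← Real.rpow_mul hT0.le]
    have e2 : T ^ 2 = T ^ (2 : ℝ) := by
      rw [← Real.rpow_natCast]
      norm_num
    rw [e1, e2]
    apply Real.rpow_le_rpow_of_exponent_le hT
    rw [div_le_iff₀ hε] at hk
    push_cast
    linarith [mul_comm (k : ℝ) ε]
  have hf : (0 : ℝ) < (Nat.factorial k : ℝ) := by positivity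
  rw [Real.exp_neg, ← div_eq_mul_inv, div_le_iff₀ (Real.exp_pos _)]
  have h3 : 16 ^ k * (Nat.factorial k : ℝ) * (((T ^ ε) ^ 2 / 16) ^ k / (Nat.factorial k : ℝ)) =
      ((T ^ ε) ^ 2) ^ k := by
    rw [div_pow]
    field_simp
  have h4 := mul_le_mul_of_nonneg_left h1 (show (0 : ℝ) ≤ 16 ^ k * (Nat.factorial k : ℝ) by positivity)
  rw [h3] at h4
  exact h2.trans h4

theorem TAI : TAI_stmt := by
  intro ε hε
  obtain ⟨C, hC, hCT⟩ := TAI_exp ε hε
  refine ⟨6 * C, by positivity, fun w T M G H₁ W hw hM hMT hG hH hHM => ?_⟩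
  have hT : 1 ≤ T := hM.trans hMT
  have hM0 : 0 < M := by linarith
  have hG0 : 0 < G := by linarith
  have hTe : 0 < T ^ ε := Real.rpow_pos_of_pos (by linarith) _
  have key : ∀ h ∈ Finset.Ico H₁ (⌊M⌋₊ + 1), ∀ n ∈ Finset.range (⌈4 * M⌉₊ + 1),
      ‖((Wz w M h ((n : ℝ) / h) : ℝ) : ℂ) * (((gz G ((n : ℝ) / h) : ℝ) : ℂ) *
        ∑ t ∈ W, E t ((n : ℝ) / h))‖ ≤ Real.exp (-((T ^ ε) ^ 2 / 16)) * (W.card : ℝ) := by
    intro h hh n hn
    obtain ⟨ha, hb⟩ := Finset.mem_Ico.1 hh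
    have hh1 : 1 ≤ h := hH.trans ha
    have hh0 : (0 : ℝ) < h := by exact_mod_cast hh1
    have hS : ‖∑ t ∈ W, E t ((n : ℝ) / h)‖ ≤ (W.card : ℝ) := by
      refine (norm_sum_le _ _).trans ?_
      have h1 : ∀ t ∈ W, ‖E t ((n : ℝ) / h)‖ ≤ 1 := fun t _ => by
        unfold E
        rw [Complex.norm_exp_ofReal_mul_I]
      refine (Finset.sum_le_sum h1).trans ?_
      rw [Finset.sum_const, nsmul_eq_mul, mul_one]
    by_cases hz : Wz w M h ((n : ℝ) / h) = 0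
    · rw [hz, Complex.ofReal_zero, zero_mul, norm_zero]
      positivity
    · have hW1 : |Wz w M h ((n : ℝ) / h)| ≤ 1 := by
        unfold Wz
        rw [abs_mul]
        have a1 := (hw.2.2 (h * ((n : ℝ) / h) / M)).1
        have a2 := (hw.2.2 (h * ((n : ℝ) / h + 1) / M)).1
        have a3 := mul_le_mul a1 a2 (abs_nonneg _) zero_le_one
        rwa [one_mul] at a3
      unfold Wz at hz
      have hw1 := left_ne_zero_of_mul hz
      have hw2 := right_ne_zero_of_mul hz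
      have e1 : (h : ℝ) * ((n : ℝ) / h) = n := by field_simp
      have e2 : (h : ℝ) * ((n : ℝ) / h + 1) = n + h := by field_simp
      rw [e1] at hw1
      rw [e2] at hw2
      have s1 : (n : ℝ) / M ∈ Set.Icc (1 : ℝ) 2 := by
        by_contra hc
        exact hw1 (hw.2.1 _ hc)
      have s2 : ((n : ℝ) + h) / M ∈ Set.Icc (1 : ℝ) 2 := by
        by_contra hc
        exact hw2 (hw.2.1 _ hc)
      have n1 : M ≤ n := by
        have := s1.1
        rwa [le_div_iff₀ hM0, one_mul] at this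
      have n2 : (n : ℝ) + h ≤ 2 * M := by
        have := s2.2
        rwa [div_le_iff₀ hM0] at this
      have hn0 : (0 : ℝ) < n := by linarith
      have hel : (h : ℝ) / (2 * M) ≤ el ((n : ℝ) / h) := by
        unfold el
        rw [one_div_div]
        have hp : 0 < 1 + (h : ℝ) / n := by positivity
        have h1 := Real.one_sub_inv_le_log_of_pos hp
        refine le_trans ?_ h1
        have h2 : 1 - (1 + (h : ℝ) / n)⁻¹ = h / (n + h) := by
          field_simp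
          ring
        rw [h2]
        exact div_le_div_of_nonneg_left hh0.le (by positivity) n2
      have hGe : T ^ ε / 2 ≤ G * el ((n : ℝ) / h) := by
        have h1 : M * T ^ ε ≤ G * h := by
          rw [div_le_iff₀ hG0] at hHM
          have h2 : (H₁ : ℝ) ≤ h := by exact_mod_cast ha
          nlinarith
        have h3 : T ^ ε / 2 ≤ G * (h / (2 * M)) := by
          rw [← mul_div_assoc, le_div_iff₀ (by positivity)]
          linarith
        exact h3.trans (mul_le_mul_of_nonneg_left hel hG0.le)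
      have hgz : gz G ((n : ℝ) / h) ≤ Real.exp (-((T ^ ε) ^ 2 / 16)) := by
        unfold gz
        apply Real.exp_le_exp.2
        have h1 := pow_le_pow_left₀ (by positivity) hGe 2
        have h2 : (T ^ ε / 2) ^ 2 = (T ^ ε) ^ 2 / 4 := by ring
        rw [h2] at h1
        linarith
      have hgz0 : 0 ≤ gz G ((n : ℝ) / h) := (Real.exp_pos _).le
      rw [norm_mul, norm_mul, Complex.norm_real, Complex.norm_real, Real.norm_eq_abs, Real.norm_eq_abs,
        abs_of_nonneg hgz0]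
      have h1 := mul_le_mul hgz hS (norm_nonneg _) (Real.exp_pos _).le
      have h2 := mul_le_mul hW1 h1 (mul_nonneg hgz0 (norm_nonneg _)) zero_le_one
      rwa [one_mul] at h2
  have h1 : ‖∑ h ∈ Finset.Ico H₁ (⌊M⌋₊ + 1), ∑ n ∈ Finset.range (⌈4 * M⌉₊ + 1),
      ((Wz w M h ((n : ℝ) / h) : ℝ) : ℂ) * (((gz G ((n : ℝ) / h) : ℝ) : ℂ) *
        ∑ t ∈ W, E t ((n : ℝ) / h))‖ ≤ ∑ h ∈ Finset.Ico H₁ (⌊M⌋₊ + 1), ∑ n ∈ Finset.range (⌈4 * M⌉₊ + 1),
        Real.exp (-((T ^ ε) ^ 2 / 16)) * (W.card : ℝ) := by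
    refine (norm_sum_le _ _).trans (Finset.sum_le_sum fun h hh => ?_)
    exact (norm_sum_le _ _).trans (Finset.sum_le_sum fun n hn => key h hh n hn)
  refine h1.trans ?_
  rw [Finset.sum_const, Finset.sum_const, Finset.card_range, Nat.card_Ico, nsmul_eq_mul, nsmul_eq_mul]
  have c1 : ((⌊M⌋₊ + 1 - H₁ : ℕ) : ℝ) ≤ T := by
    have h2 : ⌊M⌋₊ + 1 - H₁ ≤ ⌊M⌋₊ := by omega
    have h3 : ((⌊M⌋₊ + 1 - H₁ : ℕ) : ℝ) ≤ (⌊M⌋₊ : ℝ) := by exact_mod_cast h2
    exact h3.trans ((Nat.floor_le hM0.le).trans hMT)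
  have c2 : ((⌈4 * M⌉₊ + 1 : ℕ) : ℝ) ≤ 6 * T := by
    have h2 := (Nat.ceil_lt_add_one (show (0 : ℝ) ≤ 4 * M by positivity)).le
    push_cast
    linarith
  have c3 : 0 ≤ Real.exp (-((T ^ ε) ^ 2 / 16)) * (W.card : ℝ) := by positivity
  have c4 : ((⌊M⌋₊ + 1 - H₁ : ℕ) : ℝ) * (((⌈4 * M⌉₊ + 1 : ℕ) : ℝ) *
      (Real.exp (-((T ^ ε) ^ 2 / 16)) * (W.card : ℝ))) ≤
      T * (6 * T * (Real.exp (-((T ^ ε) ^ 2 / 16)) * (W.card : ℝ))) :=
    mul_le_mul c1 (mul_le_mul_of_nonneg_right c2 c3) (mul_nonneg (Nat.cast_nonneg _) c3) (by linarith)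
  refine c4.trans ?_
  have c5 := mul_le_mul_of_nonneg_right (hCT T hT) (show (0 : ℝ) ≤ 6 * (W.card : ℝ) by positivity)
  have c6 : T * (6 * T * (Real.exp (-((T ^ ε) ^ 2 / 16)) * (W.card : ℝ))) =
      T ^ 2 * Real.exp (-((T ^ ε) ^ 2 / 16)) * (6 * (W.card : ℝ)) := by ring
  rw [c6]
  refine c5.trans (le_of_eq ?_)
  ring

end Pool.Agent.BEY
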